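import Mathlib

set_option autoImplicit false

open Set Metric Filter Topology

namespace Run7.h682.UI

/-- the weight -/
noncomputable def rho (z : ℂ) : ℝ := |z.im| + Real.log (1 + ‖z‖ ^ 2)

theorem rho_nonneg (z : ℂ) : 0 ≤ rho z :=
  add_nonneg (abs_nonneg _) (Real.log_nonneg (by nlinarith [sq_nonneg ‖z‖]))

theorem rho_near {z w : ℂ} (h : ‖w - z‖ ≤ 1) : rho w ≤ rho z + 3 := by
  have h1 : |w.im| ≤ |z.im| + 1 := by
    have h2 : |w.im - z.im| ≤ 1 := by
      have := Complex.abs_im_le_norm (w - z)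
      rw [Complex.sub_im] at this
      linarith
    have h3 : |w.im| ≤ |w.im - z.im| + |z.im| := by
      have := abs_add_le (w.im - z.im) z.im
      rwa [sub_add_cancel] at this
    linarith
  have h2 : ‖w‖ ≤ ‖z‖ + 1 := by
    have := norm_le_norm_add_norm_sub' w z
    linarith
  have h3 : 1 + ‖w‖ ^ 2 ≤ 3 * (1 + ‖z‖ ^ 2) := by
    have h4 : ‖w‖ ^ 2 ≤ (‖z‖ + 1) ^ 2 := by
      apply pow_le_pow_left₀ (norm_nonneg _) h2
    nlinarith [sq_nonneg (‖z‖ - 1)]
  have h4 : Real.log (1 + ‖w‖ ^ 2) ≤ Real.log 3 + Real.log (1 + ‖z‖ ^ 2) := by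
    rw [← Real.log_mul (by norm_num) (by positivity)]
    exact Real.log_le_log (by positivity) h3
  have h5 : Real.log 3 ≤ 2 := by
    have := Real.log_le_sub_one_of_pos (by norm_num : (0 : ℝ) < 3)
    linarith
  unfold rho
  linarith

theorem one_add_norm_sq_le (z : ℂ) : 1 + ‖z‖ ^ 2 ≤ Real.exp (rho z) := by
  have h1 : Real.log (1 + ‖z‖ ^ 2) ≤ rho z := by
    unfold rho
    linarith [abs_nonneg z.im]
  calc 1 + ‖z‖ ^ 2 = Real.exp (Real.log (1 + ‖z‖ ^ 2)) := (Real.exp_log (by positivity)).symm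
    _ ≤ Real.exp (rho z) := Real.exp_le_exp.2 h1

theorem one_add_norm_le (z : ℂ) : 1 + ‖z‖ ≤ 2 * Real.exp (rho z) := by
  have := one_add_norm_sq_le z
  nlinarith [sq_nonneg (‖z‖ - 1), norm_nonneg z]

/-- entire functions with an explicit bound -/
def Bd (A B : ℝ) (g : ℂ → ℂ) : Prop :=
  Differentiable ℂ g ∧ ∀ z, ‖g z‖ ≤ A * Real.exp (B * rho z)

/-- Cauchy estimate -/
theorem cauchy {A B : ℝ} (hA : 0 ≤ A) (hB : 0 ≤ B) {g : ℂ → ℂ} (hg : Bd A B g) (k : ℕ) (c : ℂ) :
    ‖iteratedDeriv k g c‖ ≤ k.factorial * (A * Real.exp (B * (rho c + 3))) := by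
  have := Complex.norm_iteratedDeriv_le_of_forall_mem_sphere_norm_le (f := g) (c := c) (R := 1)
    (C := A * Real.exp (B * (rho c + 3))) k one_pos hg.1.diffContOnCl (by
      intro z hz
      refine (hg.2 z).trans ?_
      apply mul_le_mul_of_nonneg_left _ hA
      apply Real.exp_le_exp.2
      apply mul_le_mul_of_nonneg_left _ hB
      apply rho_near
      rw [mem_sphere_iff_norm] at hz
      exact hz.le)
  simpa using this

theorem rho_bdd (R : ℝ) : ∃ C, ∀ z : ℂ, ‖z‖ < R → rho z ≤ C := by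
  refine ⟨R + Real.log (1 + R ^ 2), fun z hz => ?_⟩
  have h1 : |z.im| ≤ R := (Complex.abs_im_le_norm z).trans hz.le
  have h2 : Real.log (1 + ‖z‖ ^ 2) ≤ Real.log (1 + R ^ 2) := by
    apply Real.log_le_log (by positivity)
    have := pow_le_pow_left₀ (norm_nonneg z) hz.le 2
    linarith
  unfold rho
  linarith

/-- sums of series in the class -/
theorem series {A : ℕ → ℝ} {B : ℝ} (hA0 : ∀ j, 0 ≤ A j) (hB : 0 ≤ B) {g : ℕ → ℂ → ℂ}
    (hg : ∀ j, Bd (A j) B (g j)) (hA : Summable A) :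
    Bd (∑' j, A j) B (fun z => ∑' j, g j z) ∧
      ∀ (k : ℕ) (c : ℂ), HasSum (fun j => iteratedDeriv k (g j) c)
        (iteratedDeriv k (fun z => ∑' j, g j z) c) := by
  have hsum : ∀ z, Summable (fun j => g j z) := fun z =>
    Summable.of_norm_bounded (hA.mul_right (Real.exp (B * rho z))) (fun j => (hg j).2 z)
  have hdiff : Differentiable ℂ (fun z => ∑' j, g j z) := by
    intro z
    obtain ⟨C, hC⟩ := rho_bdd (‖z‖ + 1)
    have h1 : DifferentiableOn ℂ (fun w => ∑' j, g j w) (Metric.ball 0 (‖z‖ + 1)) := by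
      apply Complex.differentiableOn_tsum_of_summable_norm
        (hA.mul_right (Real.exp (B * C))) (fun j => (hg j).1.differentiableOn) Metric.isOpen_ball
      intro j w hw
      rw [mem_ball_zero_iff] at hw
      refine ((hg j).2 w).trans ?_
      apply mul_le_mul_of_nonneg_left _ (hA0 j)
      exact Real.exp_le_exp.2 (mul_le_mul_of_nonneg_left (hC w hw) hB)
    exact (h1 z (by rw [mem_ball_zero_iff]; linarith)).differentiableAt
      (Metric.isOpen_ball.mem_nhds (by rw [mem_ball_zero_iff]; linarith))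
  have hbd : ∀ z, ‖∑' j, g j z‖ ≤ (∑' j, A j) * Real.exp (B * rho z) := by
    intro z
    rw [← tsum_mul_right]
    exact tsum_of_norm_bounded (hA.mul_right (Real.exp (B * rho z))).hasSum (fun j => (hg j).2 z)
  refine ⟨⟨hdiff, hbd⟩, fun k c => ?_⟩
  have hs : Summable (fun j => iteratedDeriv k (g j) c) := by
    apply Summable.of_norm_bounded
      ((hA.mul_right (Real.exp (B * (rho c + 3)))).mul_left (k.factorial : ℝ))
    intro j
    exact cauchy (hA0 j) hB (hg j) k c
  rw [hs.hasSum_iff_tendsto_nat]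
  rw [tendsto_iff_norm_sub_tendsto_zero]
  have hcd : ∀ j, ContDiffAt ℂ k (g j) c := fun j => ((hg j).1.contDiff).contDiffAt
  have key : ∀ N, ‖∑ i ∈ Finset.range N, iteratedDeriv k (g i) c -
      iteratedDeriv k (fun z => ∑' j, g j z) c‖ ≤
      k.factorial * ((∑' j, A (j + N)) * Real.exp (B * (rho c + 3))) := by
    intro N
    have h1 : iteratedDeriv k (fun z => ∑' j, g j z) c -
        ∑ i ∈ Finset.range N, iteratedDeriv k (g i) c =
        iteratedDeriv k ((fun z => ∑' j, g j z) - fun z => ∑ i ∈ Finset.range N, g i z) c := by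
      rw [iteratedDeriv_sub hdiff.contDiff.contDiffAt
        (ContDiffAt.sum (fun i _ => hcd i)), iteratedDeriv_fun_sum (fun i _ => hcd i)]
    rw [← norm_neg, neg_sub, h1]
    apply cauchy (tsum_nonneg fun j => hA0 _) hB
    refine ⟨hdiff.sub (Differentiable.fun_sum fun i _ => (hg i).1), fun z => ?_⟩
    have h2 : ((fun z => ∑' j, g j z) - fun z => ∑ i ∈ Finset.range N, g i z) z =
        ∑' j, g (j + N) z := by
      show (∑' j, g j z) - ∑ i ∈ Finset.range N, g i z = _
      rw [← (hsum z).sum_add_tsum_nat_add N]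
      ring
    rw [h2, ← tsum_mul_right]
    have hA' : Summable fun j => A (j + N) := (summable_nat_add_iff N).2 hA
    exact tsum_of_norm_bounded (hA'.mul_right (Real.exp (B * rho z))).hasSum
      (fun j => (hg (j + N)).2 z)
  have ht : Tendsto (fun N => (k.factorial : ℝ) *
      ((∑' j, A (j + N)) * Real.exp (B * (rho c + 3)))) atTop (𝓝 0) := by
    have := ((tendsto_sum_nat_add A).mul_const (Real.exp (B * (rho c + 3)))).const_mul
      (k.factorial : ℝ)
    simpa using this
  exact squeeze_zero (fun _ => norm_nonneg _) key ht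

end Run7.h682.UI
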