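import Pool.Agent.Run7.h682.UI.Basic

set_option autoImplicit false

open Set Metric Filter Topology

namespace Run7.h682.UI

/-- zeros force smallness -/
theorem zeros (c : ℂ) {R : ℝ} (hR : 0 < R) (s : Finset ℂ) : ∀ (f : ℂ → ℂ), Differentiable ℂ f →
    (∀ b ∈ s, f b = 0 ∧ ‖b - c‖ ≤ R) → ∀ M : ℝ, 0 ≤ M →
    (∀ z ∈ Metric.sphere c (4 * R), ‖f z‖ ≤ M) → ‖f c‖ ≤ M * (1 / 3) ^ s.card := by
  classical
  induction s using Finset.induction_on with
  | empty =>
    intro f hf _ M _ hM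
    have := Complex.norm_le_of_forall_mem_frontier_norm_le (U := Metric.ball c (4 * R))
      Metric.isBounded_ball hf.diffContOnCl (C := M) (by
        intro z hz
        rw [frontier_ball c (by positivity)] at hz
        exact hM z hz) (subset_closure (mem_ball_self (by positivity) : c ∈ Metric.ball c (4 * R)))
    simpa using this
  | insert b s hb ih =>
    intro f hf hz M hM0 hM
    obtain ⟨hfb, hbR⟩ := hz b (Finset.mem_insert_self b s)
    have hq : Differentiable ℂ (dslope f b) := by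
      have h1 : DifferentiableOn ℂ (dslope f b) univ :=
        (Complex.differentiableOn_dslope univ_mem).2 hf.differentiableOn
      exact differentiableOn_univ.1 h1
    have hfac : ∀ z, f z = (z - b) * dslope f b z := by
      intro z
      have := sub_smul_dslope f b z
      rw [hfb, sub_zero, smul_eq_mul] at this
      exact this.symm
    have h1 := ih (dslope f b) hq (by
      intro b' hb'
      obtain ⟨h2, h3⟩ := hz b' (Finset.mem_insert_of_mem hb')
      refine ⟨?_, h3⟩
      have h4 := hfac b'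
      rw [h2] at h4
      have hne : b' - b ≠ 0 := by
        rw [sub_ne_zero]
        rintro rfl
        exact hb hb'
      rcases mul_eq_zero.1 h4.symm with h | h
      · exact absurd h hne
      · exact h) (M / (3 * R)) (by positivity) (by
      intro z hz
      have h2 := hM z hz
      rw [hfac z, norm_mul] at h2
      rw [mem_sphere_iff_norm] at hz
      have h3 : 3 * R ≤ ‖z - b‖ := by
        have : ‖z - c‖ ≤ ‖z - b‖ + ‖b - c‖ := by
          have := norm_add_le (z - b) (b - c)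
          rwa [sub_add_sub_cancel] at this
        linarith
      rw [le_div_iff₀ (by positivity)]
      nlinarith [norm_nonneg (dslope f b z)])
    rw [hfac c, norm_mul, norm_sub_rev, Finset.card_insert_of_notMem hb]
    calc ‖b - c‖ * ‖dslope f b c‖ ≤ R * (M / (3 * R) * (1 / 3) ^ s.card) :=
          mul_le_mul hbR h1 (norm_nonneg _) hR.le
      _ = M * (1 / 3) ^ (s.card + 1) := by
          field_simp
          ring

theorem rho_le (z : ℂ) : rho z ≤ 3 * ‖z‖ := by
  have h1 := Complex.abs_im_le_norm z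
  have h2 : Real.log (1 + ‖z‖ ^ 2) ≤ 2 * ‖z‖ := by
    have h3 : 1 + ‖z‖ ^ 2 ≤ (1 + ‖z‖) ^ 2 := by nlinarith [norm_nonneg z]
    calc Real.log (1 + ‖z‖ ^ 2) ≤ Real.log ((1 + ‖z‖) ^ 2) :=
          Real.log_le_log (by positivity) h3
      _ = 2 * Real.log (1 + ‖z‖) := by rw [Real.log_pow]; norm_num
      _ ≤ 2 * ‖z‖ := by
          have := Real.log_le_sub_one_of_pos (by positivity : (0 : ℝ) < 1 + ‖z‖)
          linarith
  unfold rho
  linarith

/-- linear bound for the number of nodes in a disc -/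
theorem count {a : ℕ → ℂ} (ha : Function.Injective a) {F : ℂ → ℂ} {A B : ℝ} (hA : 0 < A)
    (hB : 0 ≤ B) (hF : Bd A B F) {c : ℂ} (hc : F c ≠ 0) (hz : ∀ n, F (a n) = 0) :
    ∃ K > 0, ∀ (R : ℝ), 0 ≤ R → ∀ t : Finset ℕ, (∀ n ∈ t, ‖a n‖ ≤ R) →
      (t.card : ℝ) ≤ K * (1 + R) := by
  classical
  have hc0 : 0 < ‖F c‖ := norm_pos_iff.2 hc
  have hl3 : 1 ≤ Real.log 3 := by
    rw [Real.le_log_iff_exp_le (by norm_num)]
    linarith [Real.exp_one_lt_d9]
  refine ⟨|Real.log A| + |Real.log ‖F c‖| + 3 * B * (5 * ‖c‖ + 4) + 12 * B + 1, by positivity,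
    fun R hR t ht => ?_⟩
  let R' := R + ‖c‖ + 1
  have hR' : 0 < R' := by positivity
  have hcard : (t.image a).card = t.card := Finset.card_image_of_injective t ha
  have h1 := zeros c hR' (t.image a) F hF.1 (by
    intro b hb
    obtain ⟨n, hn, rfl⟩ := Finset.mem_image.1 hb
    refine ⟨hz n, ?_⟩
    have := norm_sub_le (a n) c
    have := ht n hn
    simp only [R']
    linarith) (A * Real.exp (B * (3 * (‖c‖ + 4 * R')))) (by positivity) (by
    intro z hz
    refine (hF.2 z).trans ?_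
    apply mul_le_mul_of_nonneg_left _ hA.le
    apply Real.exp_le_exp.2
    apply mul_le_mul_of_nonneg_left _ hB
    refine (rho_le z).trans ?_
    rw [mem_sphere_iff_norm] at hz
    have : ‖z‖ ≤ ‖z - c‖ + ‖c‖ := by
      have := norm_add_le (z - c) c
      rwa [sub_add_cancel] at this
    linarith)
  rw [hcard] at h1
  have h2 : Real.log ‖F c‖ ≤ Real.log A + B * (3 * (‖c‖ + 4 * R')) - t.card * Real.log 3 := by
    have h3 := Real.log_le_log hc0 h1
    rw [Real.log_mul (by positivity) (by positivity), Real.log_mul (by positivity)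
      (by positivity), Real.log_exp, Real.log_pow, one_div, Real.log_inv] at h3
    linarith
  have h3 : (t.card : ℝ) ≤ t.card * Real.log 3 := by
    nlinarith [Nat.cast_nonneg (α := ℝ) t.card]
  have h4 : (t.card : ℝ) ≤ |Real.log A| + |Real.log ‖F c‖| + B * (3 * (‖c‖ + 4 * R')) := by
    have h5 := le_abs_self (Real.log A)
    have h6 := neg_abs_le (Real.log ‖F c‖)
    linarith
  refine h4.trans ?_
  have e : B * (3 * (‖c‖ + 4 * R')) = 3 * B * (5 * ‖c‖ + 4) + 12 * B * R := by
    simp only [R']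
    ring
  rw [e]
  have h7 : 0 ≤ |Real.log A| + |Real.log ‖F c‖| + 3 * B * (5 * ‖c‖ + 4) := by positivity
  have h8 : 0 ≤ (|Real.log A| + |Real.log ‖F c‖| + 3 * B * (5 * ‖c‖ + 4)) * R :=
    mul_nonneg h7 hR
  nlinarith [mul_nonneg hB hR]

/-- summability over the nodes -/
theorem summ {a : ℕ → ℂ} {K : ℝ} (hK : 0 < K)
    (hc : ∀ (R : ℝ), 0 ≤ R → ∀ t : Finset ℕ, (∀ n ∈ t, ‖a n‖ ≤ R) →
      (t.card : ℝ) ≤ K * (1 + R)) :
    Summable (fun n => Real.exp (-(3 * rho (a n)))) := by
  classical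
  -- comparison with the integer part of the norm
  have hle : ∀ n, Real.exp (-(3 * rho (a n))) ≤ 8 * (1 / ((⌊‖a n‖⌋₊ : ℝ) + 1) ^ 3) := by
    intro n
    have h1 := one_add_norm_le (a n)
    have h2 : (⌊‖a n‖⌋₊ : ℝ) + 1 ≤ 2 * Real.exp (rho (a n)) := by
      have := Nat.floor_le (norm_nonneg (a n))
      linarith
    have h3 : ((⌊‖a n‖⌋₊ : ℝ) + 1) ^ 3 ≤ 8 * Real.exp (3 * rho (a n)) := by
      have h4 := pow_le_pow_left₀ (by positivity) h2 3
      have h5 : (2 * Real.exp (rho (a n))) ^ 3 = 8 * Real.exp (3 * rho (a n)) := by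
        rw [mul_pow, ← Real.exp_nat_mul]
        norm_num
      rwa [h5] at h4
    rw [Real.exp_neg, mul_one_div, inv_eq_one_div, div_le_div_iff₀ (Real.exp_pos _)
      (by positivity)]
    linarith
  have hS : Summable (fun k : ℕ => 2 * K * (8 * (1 / ((k : ℝ) + 1) ^ 2))) := by
    have h1 : Summable (fun k : ℕ => 1 / ((k : ℝ) + 1) ^ 2) := by
      have := (summable_nat_add_iff 1).2 (Real.summable_one_div_nat_pow.2 (by norm_num : 1 < 2))
      simpa using this
    exact (h1.mul_left 8).mul_left (2 * K)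
  apply summable_of_sum_le (fun n => (Real.exp_pos _).le)
    (c := ∑' k : ℕ, 2 * K * (8 * (1 / ((k : ℝ) + 1) ^ 2)))
  intro s
  calc ∑ n ∈ s, Real.exp (-(3 * rho (a n)))
      ≤ ∑ n ∈ s, 8 * (1 / ((⌊‖a n‖⌋₊ : ℝ) + 1) ^ 3) := Finset.sum_le_sum fun n _ => hle n
    _ = ∑ k ∈ s.image (fun n => ⌊‖a n‖⌋₊),
        (s.filter (fun n => ⌊‖a n‖⌋₊ = k)).card • (8 * (1 / ((k : ℝ) + 1) ^ 3)) :=
        Finset.sum_comp (fun k : ℕ => 8 * (1 / ((k : ℝ) + 1) ^ 3)) (fun n => ⌊‖a n‖⌋₊)
    _ ≤ ∑ k ∈ s.image (fun n => ⌊‖a n‖⌋₊), 2 * K * (8 * (1 / ((k : ℝ) + 1) ^ 2)) := by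
        apply Finset.sum_le_sum
        intro k _
        have h1 := hc ((k : ℝ) + 1) (by positivity) (s.filter (fun n => ⌊‖a n‖⌋₊ = k)) (by
          intro n hn
          have h2 := (Finset.mem_filter.1 hn).2
          have h3 := (Nat.lt_floor_add_one ‖a n‖).le
          rw [h2] at h3
          exact h3)
        rw [nsmul_eq_mul]
        have h4 : K * (1 + ((k : ℝ) + 1)) ≤ 2 * K * ((k : ℝ) + 1) := by
          have : (0 : ℝ) ≤ k := Nat.cast_nonneg k
          nlinarith
        calc ((s.filter (fun n => ⌊‖a n‖⌋₊ = k)).card : ℝ) * (8 * (1 / ((k : ℝ) + 1) ^ 3))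
            ≤ (2 * K * ((k : ℝ) + 1)) * (8 * (1 / ((k : ℝ) + 1) ^ 3)) :=
              mul_le_mul_of_nonneg_right (h1.trans h4) (by positivity)
          _ = 2 * K * (8 * (1 / ((k : ℝ) + 1) ^ 2)) := by
              field_simp
    _ ≤ ∑' k : ℕ, 2 * K * (8 * (1 / ((k : ℝ) + 1) ^ 2)) :=
        hS.sum_le_tsum _ (fun k _ => by positivity)

end Run7.h682.UI
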