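import Pool.Agent.Run7.h682.UI.Unif
import Pool.Agent.Run7.h682.UI.Count

set_option autoImplicit false

open Set Metric Filter Topology

namespace Run7.h682.UI

theorem van_mul {u v : ℂ → ℂ} (hu : Differentiable ℂ u) (hv : Differentiable ℂ v) (c : ℂ)
    (i j : ℕ) (hu0 : ∀ k < i, iteratedDeriv k u c = 0) (hv0 : ∀ k < j, iteratedDeriv k v c = 0) :
    ∀ k < i + j, iteratedDeriv k (fun z => u z * v z) c = 0 := by
  intro k hk
  have h1 := iteratedDeriv_mul (n := k) (x := c) (hu.contDiff.contDiffAt) (hv.contDiff.contDiffAt)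
  have h2 : (u * v) = fun z => u z * v z := rfl
  rw [h2] at h1
  rw [h1]
  apply Finset.sum_eq_zero
  intro m hm
  rw [Finset.mem_range] at hm
  rcases lt_or_ge m i with h | h
  · rw [hu0 m h]; simp
  · rw [hv0 (k - m) (by omega)]; simp

theorem lead_mul {u v : ℂ → ℂ} (hu : Differentiable ℂ u) (hv : Differentiable ℂ v) (c : ℂ)
    (i j : ℕ) (hu0 : ∀ k < i, iteratedDeriv k u c = 0) (hv0 : ∀ k < j, iteratedDeriv k v c = 0)
    (s t : ℂ) (hs : iteratedDeriv i u c / (i.factorial : ℂ) = s)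
    (ht : iteratedDeriv j v c / (j.factorial : ℂ) = t) :
    iteratedDeriv (i + j) (fun z => u z * v z) c / ((i + j).factorial : ℂ) = s * t := by
  have h1 := iteratedDeriv_mul (n := i + j) (x := c) (hu.contDiff.contDiffAt)
    (hv.contDiff.contDiffAt)
  have h2 : (u * v) = fun z => u z * v z := rfl
  rw [h2] at h1
  rw [h1, Finset.sum_eq_single i]
  · rw [Nat.add_sub_cancel_left, ← hs, ← ht]
    have h3 : ((i + j).choose i * i.factorial * j.factorial : ℕ) = (i + j).factorial := by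
      have h30 := Nat.choose_mul_factorial_mul_factorial (by omega : i ≤ i + j)
      rw [Nat.add_sub_cancel_left] at h30
      exact h30
    have h4 : (((i + j).choose i : ℂ) * i.factorial * j.factorial) = (i + j).factorial := by
      exact_mod_cast h3
    have h5 : (i.factorial : ℂ) ≠ 0 := by exact_mod_cast i.factorial_ne_zero
    have h6 : (j.factorial : ℂ) ≠ 0 := by exact_mod_cast j.factorial_ne_zero
    have h7 : ((i + j).choose i : ℂ) ≠ 0 := by
      exact_mod_cast (Nat.choose_pos (by omega : i ≤ i + j)).ne'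
    rw [← h4]
    field_simp
  · intro m hm hmi
    rw [Finset.mem_range] at hm
    rcases lt_or_gt_of_ne hmi with h | h
    · rw [hu0 m h]; simp
    · rw [hv0 (i + j - m) (by omega)]; simp
  · intro h
    exact absurd (Finset.mem_range.2 (by omega)) h

theorem lin_deriv (b c : ℂ) : (∀ k < 0, iteratedDeriv k (fun z : ℂ => z - b) c = 0) ∧
    (b = c → (∀ k < 1, iteratedDeriv k (fun z : ℂ => z - b) c = 0) ∧
      iteratedDeriv 1 (fun z : ℂ => z - b) c / ((1 : ℕ).factorial : ℂ) = 1) := by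
  refine ⟨fun k hk => absurd hk (Nat.not_lt_zero k), fun h => ⟨fun k hk => ?_, ?_⟩⟩
  · have : k = 0 := by omega
    subst this
    simp [h]
  · rw [iteratedDeriv_one]
    simp

/-- the unit arrays -/
noncomputable def unit (n κ : ℕ) : YY :=
  BoundedContinuousFunction.ofNormedAddCommGroupDiscrete
    (fun x : ℕ × ℕ => if x = (n, κ) then (1 : ℂ) else 0) 1 (by
      intro x
      split_ifs <;> simp)

theorem unit_norm (n κ : ℕ) : ‖unit n κ‖ ≤ 1 := by
  rw [BoundedContinuousFunction.norm_le zero_le_one]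
  intro x
  show ‖(if x = (n, κ) then (1 : ℂ) else 0)‖ ≤ 1
  split_ifs <;> simp

theorem unit_apply (n κ m l : ℕ) : unit n κ (m, l) = if (m, l) = (n, κ) then 1 else 0 := rfl

theorem main {a : ℕ → ℂ} {p : ℕ → ℕ} (ha : Function.Injective a) (hp : ∀ n, 1 ≤ p n)
    (hF : ∃ F : ℂ → ℂ, (Differentiable ℂ F ∧ ∃ A > (0 : ℝ), ∃ B > (0 : ℝ), ∀ z,
      ‖F z‖ ≤ A * Real.exp (B * rho z)) ∧ (∃ z, F z ≠ 0) ∧
      ∀ n, ∀ k < p n, iteratedDeriv k F (a n) = 0)
    (hU : ∀ lam : ℕ → ℕ → ℂ,
      (∃ A > (0 : ℝ), ∃ B > (0 : ℝ), ∀ n, ∀ κ < p n,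
        ‖lam n κ‖ ≤ A * Real.exp (B * rho (a n))) →
      ∃ g : ℂ → ℂ, (Differentiable ℂ g ∧ ∃ A > (0 : ℝ), ∃ B > (0 : ℝ), ∀ z,
        ‖g z‖ ≤ A * Real.exp (B * rho z)) ∧ ∀ n, ∀ κ < p n,
        iteratedDeriv κ g (a n) / (κ.factorial : ℂ) = lam n κ) :
    ∃ f : ℂ → ℂ, (Differentiable ℂ f ∧ ∃ A > (0 : ℝ), ∃ B > (0 : ℝ), ∀ z,
      ‖f z‖ ≤ A * Real.exp (B * rho z)) ∧ (∃ z, f z ≠ 0) ∧
      (∀ n, ∀ k < p n, iteratedDeriv k f (a n) = 0) ∧
      ∃ ε > (0 : ℝ), ∃ c > (0 : ℝ), ∀ n,
        ε * Real.exp (-(c * rho (a n))) ≤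
          ‖iteratedDeriv (p n) f (a n)‖ / ((p n).factorial : ℝ) := by
  -- summability
  obtain ⟨F, ⟨hFd, A₀, hA₀, B₀, hB₀, hFb⟩, ⟨c₀, hc₀⟩, hFz⟩ := hF
  obtain ⟨K, hK, hcount⟩ := count ha hA₀ hB₀.le (show Bd A₀ B₀ F from ⟨hFd, hFb⟩) hc₀ (fun n => by
    have := hFz n 0 (hp n)
    simpa using this)
  have hsumm := summ hK hcount
  -- uniform interpolation
  obtain ⟨A, hA, B, hB, hun⟩ := unif (a := a) (p := p) (by
    intro y
    obtain ⟨g, ⟨hgd, A, hA, B, hB, hgb⟩, hg⟩ := hU (fun n κ => y (n, κ))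
      ⟨‖y‖ + 1, by positivity, 1, one_pos, fun n κ _ => by
        have h1 := y.norm_coe_le_norm (n, κ)
        have h2 : 1 ≤ Real.exp (1 * rho (a n)) := Real.one_le_exp (by
          rw [one_mul]; exact rho_nonneg _)
        nlinarith [norm_nonneg y]⟩
    exact ⟨A, hA, B, hB, g, ⟨hgd, hgb⟩, hg⟩)
  have hu : ∀ n, ∃ u, Bd A B u ∧ ∀ m, ∀ κ < p m, dat a u m κ = unit n (p n - 1) (m, κ) :=
    fun n => hun _ (unit_norm _ _)
  have hg : ∀ n, ∃ g, Bd A B g ∧ ∀ m, ∀ κ < p m, dat a g m κ = unit n 0 (m, κ) :=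
    fun n => hun _ (unit_norm _ _)
  choose u hub hud using hu
  choose g hgb hgd using hg
  have hfac : ∀ k : ℕ, (k.factorial : ℂ) ≠ 0 := fun k => by exact_mod_cast k.factorial_ne_zero
  -- vanishing of the data
  have hu0 : ∀ n m, m ≠ n → ∀ κ < p m, iteratedDeriv κ (u n) (a m) = 0 := by
    intro n m hmn κ hκ
    have h1 := hud n m κ hκ
    rw [unit_apply, if_neg (fun h => hmn (Prod.mk.inj h).1), dat, div_eq_zero_iff] at h1
    exact h1.resolve_right (hfac κ)
  have hg0 : ∀ n m, m ≠ n → ∀ κ < p m, iteratedDeriv κ (g n) (a m) = 0 := by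
    intro n m hmn κ hκ
    have h1 := hgd n m κ hκ
    rw [unit_apply, if_neg (fun h => hmn (Prod.mk.inj h).1), dat, div_eq_zero_iff] at h1
    exact h1.resolve_right (hfac κ)
  have hun0 : ∀ n, ∀ κ < p n - 1, iteratedDeriv κ (u n) (a n) = 0 := by
    intro n κ hκ
    have h1 := hud n n κ (by omega)
    rw [unit_apply, if_neg (fun h => by
      have := (Prod.mk.inj h).2
      omega), dat, div_eq_zero_iff] at h1
    exact h1.resolve_right (hfac κ)
  have hun1 : ∀ n, iteratedDeriv (p n - 1) (u n) (a n) / ((p n - 1).factorial : ℂ) = 1 := by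
    intro n
    have h1 := hud n n (p n - 1) (by have := hp n; omega)
    rw [unit_apply, if_pos rfl, dat] at h1
    exact h1
  have hgn1 : ∀ n, iteratedDeriv 0 (g n) (a n) / ((0 : ℕ).factorial : ℂ) = 1 := by
    intro n
    have h1 := hgd n n 0 (hp n)
    rw [unit_apply, if_pos rfl, dat] at h1
    exact h1
  -- the products
  let w : ℕ → ℂ → ℂ := fun n z => u n z * ((z - a n) * g n z)
  have hlin : ∀ b : ℂ, Differentiable ℂ (fun z : ℂ => z - b) := fun b => differentiable_id.sub_const b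
  have hlg : ∀ n, Differentiable ℂ (fun z => (z - a n) * g n z) := fun n =>
    (hlin _).mul (hgb n).1
  have hwd : ∀ n, Differentiable ℂ (w n) := fun n => (hub n).1.mul (hlg n)
  have hw0 : ∀ n m, m ≠ n → ∀ k < p m + 1, iteratedDeriv k (w n) (a m) = 0 := by
    intro n m hmn k hk
    have h1 := van_mul (hlin (a n)) (hgb n).1 (a m) 0 (p m) (lin_deriv _ _).1 (hg0 n m hmn)
    have h2 := van_mul (hub n).1 (hlg n) (a m) (p m) (0 + p m) (hu0 n m hmn) h1
    exact h2 k (by have := hp m; omega)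
  have hwn0 : ∀ n, ∀ k < p n, iteratedDeriv k (w n) (a n) = 0 := by
    intro n k hk
    have h1 := van_mul (hlin (a n)) (hgb n).1 (a n) 1 0 ((lin_deriv _ _).2 rfl).1
      (fun k hk => absurd hk (Nat.not_lt_zero k))
    have h2 := van_mul (hub n).1 (hlg n) (a n) (p n - 1) (1 + 0) (hun0 n) h1
    exact h2 k (by have := hp n; omega)
  have hwn1 : ∀ n, iteratedDeriv (p n) (w n) (a n) / ((p n).factorial : ℂ) = 1 := by
    intro n
    have h1 := van_mul (hlin (a n)) (hgb n).1 (a n) 1 0 ((lin_deriv _ _).2 rfl).1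
      (fun k hk => absurd hk (Nat.not_lt_zero k))
    have h2 := lead_mul (hlin (a n)) (hgb n).1 (a n) 1 0 ((lin_deriv _ _).2 rfl).1
      (fun k hk => absurd hk (Nat.not_lt_zero k)) 1 1 ((lin_deriv _ _).2 rfl).2 (hgn1 n)
    have h3 := lead_mul (hub n).1 (hlg n) (a n) (p n - 1) (1 + 0) (hun0 n) h1 1 (1 * 1) (hun1 n) h2
    have e : p n - 1 + (1 + 0) = p n := by have := hp n; omega
    rw [e] at h3
    simpa using h3
  -- the series
  let c : ℕ → ℂ := fun n => ((Real.exp (-(4 * rho (a n))) : ℝ) : ℂ)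
  have hcn : ∀ n, ‖c n‖ = Real.exp (-(4 * rho (a n))) := fun n => by
    simp only [c]
    rw [Complex.norm_real, Real.norm_of_nonneg (Real.exp_pos _).le]
  let G : ℕ → ℂ → ℂ := fun n z => c n * w n z
  have hGb : ∀ n, Bd (4 * A ^ 2 * Real.exp (-(3 * rho (a n)))) (2 * B + 1) (G n) := by
    intro n
    refine ⟨(hwd n).const_mul (c n), fun z => ?_⟩
    have h1 := (hub n).2 z
    have h2 := (hgb n).2 z
    have h3 : ‖z - a n‖ ≤ (2 * Real.exp (rho z)) * (2 * Real.exp (rho (a n))) := by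
      have h4 := one_add_norm_le z
      have h5 := one_add_norm_le (a n)
      have h6 := norm_sub_le z (a n)
      have h7 : (1 + ‖z‖) * (1 + ‖a n‖) ≤ (2 * Real.exp (rho z)) * (2 * Real.exp (rho (a n))) :=
        mul_le_mul h4 h5 (by positivity) (by positivity)
      nlinarith [norm_nonneg z, norm_nonneg (a n), mul_nonneg (norm_nonneg z) (norm_nonneg (a n))]
    have h8 : ‖G n z‖ = Real.exp (-(4 * rho (a n))) * (‖u n z‖ * (‖z - a n‖ * ‖g n z‖)) := by
      simp only [G, w]
      rw [norm_mul, norm_mul, norm_mul, hcn]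
    rw [h8]
    have h9 : ‖u n z‖ * (‖z - a n‖ * ‖g n z‖) ≤ (A * Real.exp (B * rho z)) *
        (((2 * Real.exp (rho z)) * (2 * Real.exp (rho (a n)))) * (A * Real.exp (B * rho z))) :=
      mul_le_mul h1 (mul_le_mul h3 h2 (norm_nonneg _) (by positivity)) (by positivity)
        (by positivity)
    calc Real.exp (-(4 * rho (a n))) * (‖u n z‖ * (‖z - a n‖ * ‖g n z‖))
        ≤ Real.exp (-(4 * rho (a n))) * ((A * Real.exp (B * rho z)) *
        (((2 * Real.exp (rho z)) * (2 * Real.exp (rho (a n)))) * (A * Real.exp (B * rho z)))) :=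
          mul_le_mul_of_nonneg_left h9 (Real.exp_pos _).le
      _ = 4 * A ^ 2 * Real.exp (-(3 * rho (a n))) * Real.exp ((2 * B + 1) * rho z) := by
          have e1 : Real.exp (-(3 * rho (a n))) =
              Real.exp (-(4 * rho (a n))) * Real.exp (rho (a n)) := by
            rw [← Real.exp_add]
            congr 1
            ring
          have e2 : Real.exp ((2 * B + 1) * rho z) =
              Real.exp (B * rho z) * Real.exp (B * rho z) * Real.exp (rho z) := by
            rw [← Real.exp_add, ← Real.exp_add]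
            congr 1
            ring
          rw [e1, e2]
          ring
  have hA4 : Summable (fun n => 4 * A ^ 2 * Real.exp (-(3 * rho (a n)))) := hsumm.mul_left _
  obtain ⟨hBd, hH⟩ := series (fun n => by positivity) (by positivity) hGb hA4
  have hGk : ∀ n k z, iteratedDeriv k (G n) z = c n * iteratedDeriv k (w n) z := fun n k z =>
    iteratedDeriv_const_mul_field (c n) (w n)
  have hval0 : ∀ m, ∀ k < p m, iteratedDeriv k (fun z => ∑' j, G j z) (a m) = 0 := by
    intro m k hk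
    have h1 := hH k (a m)
    have h2 : (fun j => iteratedDeriv k (G j) (a m)) = fun _ => 0 := by
      funext j
      rw [hGk]
      by_cases hj : m = j
      · subst hj
        rw [hwn0 m k hk, mul_zero]
      · rw [hw0 j m hj k (by omega), mul_zero]
    rw [h2] at h1
    exact h1.unique hasSum_zero
  have hval1 : ∀ m, iteratedDeriv (p m) (fun z => ∑' j, G j z) (a m) =
      c m * ((p m).factorial : ℂ) := by
    intro m
    have h1 := hH (p m) (a m)
    have h2 : HasSum (fun j => iteratedDeriv (p m) (G j) (a m))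
        (iteratedDeriv (p m) (G m) (a m)) := by
      apply hasSum_single
      intro j hj
      rw [hGk, hw0 j m (Ne.symm hj) (p m) (by omega), mul_zero]
    rw [h1.unique h2, hGk]
    have h3 := hwn1 m
    rw [div_eq_one_iff_eq (hfac _)] at h3
    rw [h3]
  have hnorm : ∀ m, ‖iteratedDeriv (p m) (fun z => ∑' j, G j z) (a m)‖ /
      ((p m).factorial : ℝ) = Real.exp (-(4 * rho (a m))) := by
    intro m
    rw [hval1, norm_mul, hcn, Complex.norm_natCast]
    have : ((p m).factorial : ℝ) ≠ 0 := by exact_mod_cast (p m).factorial_ne_zero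
    field_simp
  refine ⟨fun z => ∑' j, G j z, ⟨hBd.1, (∑' n, 4 * A ^ 2 * Real.exp (-(3 * rho (a n)))) + 1,
    by positivity, 2 * B + 1, by positivity, fun z => ?_⟩, ?_, hval0, 1, one_pos, 4, by norm_num,
    fun n => ?_⟩
  · refine (hBd.2 z).trans ?_
    apply mul_le_mul_of_nonneg_right _ (Real.exp_pos _).le
    linarith
  · by_contra hcon
    push Not at hcon
    have h1 : (fun z => ∑' j, G j z) = fun _ => 0 := funext hcon
    have h2 := hnorm 0
    rw [h1] at h2
    have h3 : iteratedDeriv (p 0) (fun _ : ℂ => (0 : ℂ)) (a 0) = 0 := by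
      rw [iteratedDeriv_const]
      simp
    rw [h3, norm_zero, zero_div] at h2
    exact absurd h2 (Real.exp_pos _).ne
  · rw [one_mul, hnorm n]

end Run7.h682.UI
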