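import Pool.Agent.Run7.h682.UI.Basic

set_option autoImplicit false

open Set Metric Filter Topology

namespace Run7.h682.UI

/-- Taylor coefficients at the nodes -/
noncomputable def dat (a : ℕ → ℂ) (g : ℂ → ℂ) (n κ : ℕ) : ℂ :=
  iteratedDeriv κ g (a n) / (κ.factorial : ℂ)

/-- bounded arrays -/
abbrev YY := BoundedContinuousFunction (ℕ × ℕ) ℂ

/-- arrays with an interpolant of given size -/
def KK (a : ℕ → ℂ) (p : ℕ → ℕ) (A B : ℝ) : Set YY :=
  {y | ∃ g, Bd A B g ∧ ∀ n, ∀ κ < p n, dat a g n κ = y (n, κ)}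

variable {a : ℕ → ℂ} {p : ℕ → ℕ}

theorem Bd.cd {A B : ℝ} {g : ℂ → ℂ} (hg : Bd A B g) (k : ℕ) (c : ℂ) : ContDiffAt ℂ k g c :=
  hg.1.contDiff.contDiffAt

theorem KK_sub {A A' B : ℝ} {y y' : YY} (h : y ∈ KK a p A B) (h' : y' ∈ KK a p A' B) :
    y - y' ∈ KK a p (A + A') B := by
  obtain ⟨g, hg, hd⟩ := h
  obtain ⟨g', hg', hd'⟩ := h'
  refine ⟨g - g', ⟨hg.1.sub hg'.1, fun z => ?_⟩, fun n κ hκ => ?_⟩
  · rw [add_mul]
    exact (norm_sub_le _ _).trans (add_le_add (hg.2 z) (hg'.2 z))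
  · rw [dat, iteratedDeriv_sub (hg.cd κ _) (hg'.cd κ _), sub_div]
    have h1 := hd n κ hκ
    have h2 := hd' n κ hκ
    rw [dat] at h1 h2
    rw [h1, h2]
    rfl

theorem KK_smul {A B : ℝ} {y : YY} (h : y ∈ KK a p A B) (c : ℂ) :
    c • y ∈ KK a p (‖c‖ * A) B := by
  obtain ⟨g, hg, hd⟩ := h
  refine ⟨fun z => c * g z, ⟨hg.1.const_mul c, fun z => ?_⟩, fun n κ hκ => ?_⟩
  · rw [norm_mul, mul_assoc]
    exact mul_le_mul_of_nonneg_left (hg.2 z) (norm_nonneg _)
  · rw [dat, iteratedDeriv_const_mul_field, mul_div_assoc]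
    have h1 := hd n κ hκ
    rw [dat] at h1
    rw [h1]
    rfl

theorem KK_mono {A A' B B' : ℝ} (hA : A ≤ A') (hB : B ≤ B') (hA0 : 0 ≤ A') {y : YY}
    (h : y ∈ KK a p A B) : y ∈ KK a p A' B' := by
  obtain ⟨g, hg, hd⟩ := h
  refine ⟨g, ⟨hg.1, fun z => (hg.2 z).trans ?_⟩, hd⟩
  calc A * Real.exp (B * rho z) ≤ A' * Real.exp (B * rho z) :=
        mul_le_mul_of_nonneg_right hA (Real.exp_nonneg _)
    _ ≤ A' * Real.exp (B' * rho z) := by
        apply mul_le_mul_of_nonneg_left _ hA0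
        exact Real.exp_le_exp.2 (mul_le_mul_of_nonneg_right hB (rho_nonneg z))

/-- uniform interpolation from pointwise interpolation -/
theorem unif (hU : ∀ y : YY, ∃ A > 0, ∃ B > 0, y ∈ KK a p A B) :
    ∃ A > 0, ∃ B > 0, ∀ y : YY, ‖y‖ ≤ 1 → y ∈ KK a p A B := by
  -- Baire
  obtain ⟨M, hM⟩ : ∃ M : ℕ, (interior (closure (KK a p M M))).Nonempty := by
    apply nonempty_interior_of_iUnion_of_closed (fun _ => isClosed_closure)
    rw [eq_univ_iff_forall]
    intro y
    obtain ⟨A, hA, B, hB, hy⟩ := hU y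
    obtain ⟨M, hM⟩ := exists_nat_ge (max A B)
    rw [mem_iUnion]
    refine ⟨M, subset_closure (KK_mono ((le_max_left _ _).trans hM) ((le_max_right _ _).trans hM)
      (Nat.cast_nonneg M) hy)⟩
  obtain ⟨y₀, hy₀⟩ := hM
  obtain ⟨r, hr, hball⟩ := Metric.isOpen_iff.1 isOpen_interior y₀ hy₀
  have hball' : Metric.ball y₀ r ⊆ closure (KK a p M M) := hball.trans interior_subset
  -- a ball at the origin
  have happ : ∀ y : YY, ‖y‖ < r → ∀ e > 0, ∃ y' ∈ KK a p (2 * M) M, ‖y - y'‖ < e := by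
    intro y hy e he
    have h1 : y₀ + y ∈ closure (KK a p M M) := hball' (by
      rw [mem_ball_iff_norm]; simpa using hy)
    have h2 : y₀ ∈ closure (KK a p M M) := hball' (mem_ball_self hr)
    obtain ⟨u, hu, hu'⟩ := Metric.mem_closure_iff.1 h1 (e / 2) (by positivity)
    obtain ⟨v, hv, hv'⟩ := Metric.mem_closure_iff.1 h2 (e / 2) (by positivity)
    rw [dist_eq_norm] at hu' hv'
    refine ⟨u - v, ?_, ?_⟩
    · have := KK_sub hu hv
      rwa [← two_mul] at this
    · have e1 : y - (u - v) = (y₀ + y - u) - (y₀ - v) := by abel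
      rw [e1]
      exact (norm_sub_le _ _).trans_lt (by linarith)
  -- scaled version
  have hstep : ∀ (j : ℕ) (y : YY), ‖y‖ < r / 2 ^ j →
      ∃ y', (∃ g, Bd (2 * M / 2 ^ j) M g ∧ ∀ n, ∀ κ < p n, dat a g n κ = y' (n, κ)) ∧
        ‖y - y'‖ < r / 2 ^ (j + 1) := by
    intro j y hy
    have hc : ‖((2 : ℂ) ^ j)‖ = 2 ^ j := by simp
    have hc0 : (0 : ℝ) < 2 ^ j := by positivity
    have h1 : ‖((2 : ℂ) ^ j) • y‖ < r := by
      rw [norm_smul, hc]
      rw [lt_div_iff₀ hc0] at hy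
      linarith
    obtain ⟨y', hy', hn⟩ := happ _ h1 (r / 2) (by positivity)
    refine ⟨((2 : ℂ) ^ j)⁻¹ • y', ?_, ?_⟩
    · have h2 := KK_smul hy' (((2 : ℂ) ^ j)⁻¹)
      rw [norm_inv, hc] at h2
      have e1 : ((2 : ℝ) ^ j)⁻¹ * (2 * M) = 2 * M / 2 ^ j := by field_simp
      rw [e1] at h2
      exact h2
    · have e1 : y - ((2 : ℂ) ^ j)⁻¹ • y' = ((2 : ℂ) ^ j)⁻¹ • (((2 : ℂ) ^ j) • y - y') := by
        rw [smul_sub, smul_smul, inv_mul_cancel₀ (pow_ne_zero _ two_ne_zero), one_smul]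
      rw [e1, norm_smul, norm_inv, hc]
      rw [pow_succ]
      have : r / (2 ^ j * 2) = (2 ^ j : ℝ)⁻¹ * (r / 2) := by field_simp
      rw [this]
      exact mul_lt_mul_of_pos_left hn (by positivity)
  choose! Y' hY' hlt using hstep
  choose! G hG hdat using hY'
  -- every array in the small ball
  have hsmall : ∀ y : YY, ‖y‖ < r → y ∈ KK a p (4 * M) M := by
    intro y hy
    let x : ℕ → YY := fun j => Nat.rec y (fun j xj => xj - Y' j xj) j
    have hx0 : x 0 = y := rfl
    have hxs : ∀ j, x (j + 1) = x j - Y' j (x j) := fun j => rfl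
    have hxn : ∀ j, ‖x j‖ < r / 2 ^ j := by
      intro j
      induction j with
      | zero => simpa [hx0] using hy
      | succ j ih =>
        rw [hxs]
        exact hlt j (x j) ih
    have hGj : ∀ j, Bd (2 * M / 2 ^ j) M (G j (x j)) := fun j => hG j (x j) (hxn j)
    have hDj : ∀ j, ∀ n, ∀ κ < p n, dat a (G j (x j)) n κ = Y' j (x j) (n, κ) :=
      fun j => hdat j (x j) (hxn j)
    have hsumA : HasSum (fun j : ℕ => 2 * (M : ℝ) / 2 ^ j) (4 * M) := by
      have := (hasSum_geometric_two' (4 * (M : ℝ)))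
      convert this using 1
      funext j
      ring
    obtain ⟨hB, hH⟩ := series (fun j => by positivity) (Nat.cast_nonneg M) hGj hsumA.summable
    rw [hsumA.tsum_eq] at hB
    refine ⟨_, hB, fun n κ hκ => ?_⟩
    have h1 := (hH κ (a n)).div_const (κ.factorial : ℂ)
    have h2 : HasSum (fun j => Y' j (x j) (n, κ)) (y (n, κ)) := by
      have hs : Summable (fun j => Y' j (x j) (n, κ)) := by
        have h7 := h1.summable
        have h8 : (fun j => Y' j (x j) (n, κ)) =
            fun i => iteratedDeriv κ (G i (x i)) (a n) / (κ.factorial : ℂ) :=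
          funext fun j => (hDj j n κ hκ).symm
        rw [h8]
        exact h7
      rw [hs.hasSum_iff_tendsto_nat]
      have h3 : ∀ N, ∑ j ∈ Finset.range N, Y' j (x j) (n, κ) = y (n, κ) - x N (n, κ) := by
        intro N
        induction N with
        | zero => simp [hx0]
        | succ N ih =>
          rw [Finset.sum_range_succ, ih, hxs]
          simp only [BoundedContinuousFunction.coe_sub, Pi.sub_apply]
          ring
      simp_rw [h3]
      have h4 : Tendsto (fun N => x N (n, κ)) atTop (𝓝 0) := by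
        rw [tendsto_zero_iff_norm_tendsto_zero]
        have h5 : Tendsto (fun N : ℕ => r / 2 ^ N) atTop (𝓝 0) := by
          have := (tendsto_pow_atTop_nhds_zero_of_lt_one (r := (2 : ℝ)⁻¹) (by norm_num)
            (by norm_num)).const_mul r
          simpa [div_eq_mul_inv] using this
        exact squeeze_zero (fun _ => norm_nonneg _)
          (fun N => ((x N).norm_coe_le_norm _).trans (hxn N).le) h5
      simpa using h4.const_sub (y (n, κ))
    have h6 : HasSum (fun j => iteratedDeriv κ (G j (x j)) (a n) / (κ.factorial : ℂ))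
        (y (n, κ)) := by
      have h8 : (fun i => iteratedDeriv κ (G i (x i)) (a n) / (κ.factorial : ℂ)) =
          (fun j => Y' j (x j) (n, κ)) :=
        funext fun j => hDj j n κ hκ
      rw [h8]
      exact h2
    exact h1.unique h6
  refine ⟨(2 / r) * (4 * (M + 1)), by positivity, (M : ℝ) + 1, by positivity, fun y hy => ?_⟩
  have h1 : ‖((r / 2 : ℝ) : ℂ) • y‖ < r := by
    rw [norm_smul, Complex.norm_real, Real.norm_of_nonneg (by positivity)]
    nlinarith [norm_nonneg y]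
  have h2 := KK_smul (hsmall _ h1) ((2 / r : ℝ) : ℂ)
  rw [smul_smul, Complex.norm_real, Real.norm_of_nonneg (by positivity)] at h2
  have e1 : ((2 / r : ℝ) : ℂ) * ((r / 2 : ℝ) : ℂ) = 1 := by
    rw [← Complex.ofReal_mul]
    have : (2 / r) * (r / 2) = 1 := by field_simp
    rw [this, Complex.ofReal_one]
  rw [e1, one_smul] at h2
  refine KK_mono ?_ (by linarith) (by positivity) h2
  apply mul_le_mul_of_nonneg_left _ (by positivity)
  linarith

end Run7.h682.UI
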